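import Pool.Agent.Helper22.SC.Conv
import Pool.Agent.Helper66.SC.FB2a

/-! # G2: fusion -/

universe u

namespace Pool.Agent.Helper96.SC

open ZFSet
open Pool.Agent.Helper66.SC (Fml Sat IsZF Cls sat_rn mem_Pow img mem_img tc CardLe UD UF CZ oz nz
  WO IsGeneric val mem_val Ext chk mem_chk FEq FMem Forces ST_FB2 ST_FB3 ST_G2 Split ChainClosed)
open Pool.Agent.Helper22.SC

variable {C : Cls.{u}}
variable {α β γ δ : Type (u + 1)} [Ctx.{u} α] [Ctx.{u} β] [Ctx.{u} γ] [Ctx.{u} δ]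

/-! ### Canonical names -/

theorem chk_eq (x : ZFSet.{u}) : chk x = img x (fun y => ZFSet.pair (chk y) ∅) := by
  ext z
  rw [mem_chk, mem_img]
  constructor
  · rintro ⟨y, hy, rfl⟩
    exact ⟨y, hy, rfl⟩
  · rintro ⟨y, hy, rfl⟩
    exact ⟨y, hy, rfl⟩

theorem U.chk [ZCls C] {f : Set ZFSet.{u} → Set ZFSet.{u} → α → ZFSet.{u}} (hf : U C f) :
    U C (fun N A a => Pool.Agent.Helper66.SC.chk (f N A a)) := by
  have h0 : U C (fun _ _ (p : ZFSet.{u}) => Pool.Agent.Helper66.SC.chk p) := by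
    refine U.memrec0 (F := fun _ _ _ g => Helper66.SC.img g (fun z => ZFSet.pair (psnd z) ∅))
      (by apply_rules (transparency := .reducible) (maxDepth := 400) using is_poly) ?_
    intro N A _ x _
    rw [img_gr (h := fun t => ZFSet.pair t ∅)]
    exact chk_eq x
  exact h0.comp hf

attribute [is_poly] U.chk

theorem val_chk {G : ZFSet.{u}} (hG : ∅ ∈ G) (x : ZFSet.{u}) :
    val G (Pool.Agent.Helper66.SC.chk x) = x := by
  induction x using ZFSet.inductionOn with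
  | _ x ih =>
    ext z
    rw [mem_val]
    constructor
    · rintro ⟨σ, p, _, h, rfl⟩
      obtain ⟨y, hy, h1⟩ := mem_chk.1 h
      obtain ⟨rfl, rfl⟩ := ZFSet.pair_inj.1 h1
      rw [ih y hy]
      exact hy
    · intro hz
      exact ⟨chk z, ∅, hG, mem_chk.2 ⟨z, hz, rfl⟩, (ih z hz).symm⟩

theorem chk_mem {M A : Set ZFSet.{u}} (hM : IsZF M A) {x : ZFSet.{u}} (hx : x ∈ M) :
    Pool.Agent.Helper66.SC.chk x ∈ M :=
  in_zfset.1 ((U.chk (C := fun M A => IsZF M A) (U.id (α := ZFSet.{u}))).closed hM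
    (a := x) (in_zfset.2 hx))

/-! ### The forcing relation for membership -/

theorem URel.fmem (hFB3 : ST_FB3.{u}) {f g h k : Set ZFSet.{u} → Set ZFSet.{u} → α → ZFSet.{u}}
    (hf : U CZ.{u} f) (hg : U CZ g) (hh : U CZ h) (hk : U CZ k) :
    URel CZ.{u} (fun N A a => FMem (f N A a) (g N A a) (h N A a) (k N A a)) := by
  have h1 := ud_iff.1 (hFB3 2 (Fml.mem 0 1))
  refine h1.comp (f := fun N A a => (![k N A a, f N A a, g N A a, h N A a] : Fin 4 → ZFSet.{u})) ?_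
  refine U.finMk (fun i => ?_)
  fin_cases i
  · exact hk
  · exact hf
  · exact hg
  · exact hh

/-- `p` decides `ξ ∈ τ`. -/
def Dec (P τ ξ p : ZFSet.{u}) : Prop :=
  FMem P (chk ξ) τ p ∨ ∀ r ∈ P, p ⊆ r → ¬ FMem P (chk ξ) τ r

theorem URel.dec (hFB3 : ST_FB3.{u}) {f g h k : Set ZFSet.{u} → Set ZFSet.{u} → α → ZFSet.{u}}
    (hf : U CZ.{u} f) (hg : U CZ g) (hh : U CZ h) (hk : U CZ k) :
    URel CZ.{u} (fun N A a => Dec (f N A a) (g N A a) (h N A a) (k N A a)) := by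
  have h0 : URel CZ.{u} (fun _ _ (p : ((ZFSet.{u} × ZFSet.{u}) × ZFSet.{u}) × ZFSet.{u}) =>
      Dec p.1.1.1 p.1.1.2 p.1.2 p.2) := by
    unfold Dec
    refine URel.or ?_ ?_
    · refine URel.fmem hFB3 ?_ ?_ ?_ ?_ <;>
        apply_rules (transparency := .reducible) (maxDepth := 400) using is_poly
    · refine URel.ball (R := fun _ _ (p : ((ZFSet.{u} × ZFSet.{u}) × ZFSet.{u}) × ZFSet.{u}) r =>
        p.2 ⊆ r → ¬ FMem p.1.1.1 (Pool.Agent.Helper66.SC.chk p.1.2) p.1.1.2 r) ?_ ?_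
      · apply_rules (transparency := .reducible) (maxDepth := 400) using is_poly
      · refine URel.imp ?_ (URel.not ?_)
        · apply_rules (transparency := .reducible) (maxDepth := 400) using is_poly
        · refine URel.fmem hFB3 ?_ ?_ ?_ ?_ <;>
            apply_rules (transparency := .reducible) (maxDepth := 400) using is_poly
  exact h0.comp (f := fun N A a => (((f N A a, g N A a), h N A a), k N A a))
    (((hf.prodMk hg).prodMk hh).prodMk hk)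

/-! ### Least elements -/

/-- The element of `S` with the least value of `e`. -/
noncomputable def pick (e S : ZFSet.{u}) : ZFSet.{u} :=
  ⋃₀ (ZFSet.sep (fun q => ∀ q' ∈ S, app e q ⊆ app e q') S)

theorem U.pick [ZCls C] {f g : Set ZFSet.{u} → Set ZFSet.{u} → α → ZFSet.{u}} (hf : U C f)
    (hg : U C g) : U C (fun N A a => SC.pick (f N A a) (g N A a)) := by
  have h0 : U C (fun _ _ (p : ZFSet.{u} × ZFSet.{u}) => SC.pick p.1 p.2) := by
    unfold SC.pick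
    apply_rules (transparency := .reducible) (maxDepth := 400) using is_poly
  exact h0.comp (hf.prodMk hg)

attribute [is_poly] U.pick

theorem pick_mem {R e S : ZFSet.{u}} {o : Ordinal.{u}} (he : IsFunc R (oz o) e)
    (hinj : ∀ y ∈ R, ∀ y' ∈ R, ∀ z, ZFSet.pair y z ∈ e → ZFSet.pair y' z ∈ e → y = y')
    (hS : S ⊆ R) (hne : ∃ q, q ∈ S) : pick e S ∈ S := by
  have key : ∀ q ∈ R, ∃ c : Ordinal.{u}, ZFSet.pair q (oz c) ∈ e ∧ app e q = oz c := by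
    intro q hq
    obtain ⟨w, hw, hw'⟩ := he.2 q hq
    have h1 := he.1 hw
    rw [ZFSet.pair_mem_prod] at h1
    obtain ⟨c, _, hc⟩ := Ordinal.mem_toZFSet_iff.1 h1.2
    subst hc
    exact ⟨c, hw, app_eq hw hw'⟩
  obtain ⟨q0, hq0⟩ := hne
  obtain ⟨c0, _, hc0⟩ := key q0 (hS hq0)
  obtain ⟨c, ⟨q, hq, hqc⟩, hmin⟩ := WellFounded.has_min (wellFounded_lt (α := Ordinal.{u}))
    {c : Ordinal.{u} | ∃ q ∈ S, app e q = oz c} ⟨c0, q0, hq0, hc0⟩
  have hs : ZFSet.sep (fun q => ∀ q' ∈ S, app e q ⊆ app e q') S = ({q} : ZFSet.{u}) := by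
    ext z
    rw [mem_sep, mem_singleton]
    constructor
    · rintro ⟨hz, h1⟩
      obtain ⟨c', hc', hc''⟩ := key z (hS hz)
      obtain ⟨d, hd, hd'⟩ := key q (hS hq)
      have h2 := h1 q hq
      rw [hc'', hd', Ordinal.toZFSet_subset_toZFSet_iff] at h2
      have hdc : d = c := Ordinal.toZFSet_injective (hd'.symm.trans hqc)
      have h3 : ¬ c' < c := hmin c' ⟨z, hz, hc''⟩
      have h4 : c' = d := le_antisymm h2 (hdc ▸ not_lt.1 h3)
      subst h4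
      exact hinj z (hS hz) q (hS hq) _ hc' hd
    · rintro rfl
      refine ⟨hq, fun q' hq' => ?_⟩
      obtain ⟨c', _, hc'⟩ := key q' (hS hq')
      rw [hqc, hc', Ordinal.toZFSet_subset_toZFSet_iff]
      exact not_lt.1 (hmin c' ⟨q', hq', hc'⟩)
  unfold pick
  rw [hs, sUnion_singleton]
  exact hq

/-! ### The recursion -/

/-- The possible next conditions. The parameters are: `0 : q₀`, `1 : e` (an injection of `R`
into an ordinal), `2 : R`, `3 : h` (an injection of `μ × Q` into `θ`), `4 : Q`, `5 : P`,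
`6 : τ`. -/
noncomputable def cand (a : Fin 7 → ZFSet.{u}) (x u : ZFSet.{u}) : ZFSet.{u} :=
  ZFSet.sep (fun q => u ⊆ q ∧ ∀ s ∈ a 3, psnd s = x → ∃ b ∈ a 4, psnd (pfst s) ⊆ b ∧
    Dec (a 5) (a 6) (pfst (pfst s)) (b ∪ q)) (a 2)

theorem U.cand (hFB3 : ST_FB3.{u}) {f : Set ZFSet.{u} → Set ZFSet.{u} → α → (Fin 7 → ZFSet.{u})}
    {g h : Set ZFSet.{u} → Set ZFSet.{u} → α → ZFSet.{u}}
    (hf : U CZ.{u} f) (hg : U CZ g) (hh : U CZ h) :
    U CZ.{u} (fun N A a => SC.cand (f N A a) (g N A a) (h N A a)) := by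
  have h0 : U CZ.{u} (fun _ _ (p : ((Fin 7 → ZFSet.{u}) × ZFSet.{u}) × ZFSet.{u}) =>
      SC.cand p.1.1 p.1.2 p.2) := by
    unfold SC.cand
    refine U.sep (R := fun _ _ (p : ((Fin 7 → ZFSet.{u}) × ZFSet.{u}) × ZFSet.{u}) q =>
      p.2 ⊆ q ∧ ∀ s ∈ p.1.1 3, psnd s = p.1.2 → ∃ b ∈ p.1.1 4, psnd (pfst s) ⊆ b ∧
        Dec (p.1.1 5) (p.1.1 6) (pfst (pfst s)) (b ∪ q)) ?_ ?_
    · apply_rules (transparency := .reducible) (maxDepth := 400) using is_poly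
    · refine URel.and ?_ ?_
      · apply_rules (transparency := .reducible) (maxDepth := 400) using is_poly
      · refine URel.ball (R := fun _ _ (p : (((Fin 7 → ZFSet.{u}) × ZFSet.{u}) × ZFSet.{u}) ×
            ZFSet.{u}) s => psnd s = p.1.1.2 → ∃ b ∈ p.1.1.1 4, psnd (pfst s) ⊆ b ∧
          Dec (p.1.1.1 5) (p.1.1.1 6) (pfst (pfst s)) (b ∪ p.2)) ?_ ?_
        · apply_rules (transparency := .reducible) (maxDepth := 400) using is_poly
        · refine URel.imp ?_ ?_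
          · apply_rules (transparency := .reducible) (maxDepth := 400) using is_poly
          · refine URel.bex (R := fun _ _ (p : ((((Fin 7 → ZFSet.{u}) × ZFSet.{u}) × ZFSet.{u}) ×
                ZFSet.{u}) × ZFSet.{u}) b => psnd (pfst p.2) ⊆ b ∧
              Dec (p.1.1.1.1 5) (p.1.1.1.1 6) (pfst (pfst p.2)) (b ∪ p.1.2)) ?_ ?_
            · apply_rules (transparency := .reducible) (maxDepth := 400) using is_poly
            · refine URel.and ?_ (URel.dec hFB3 ?_ ?_ ?_ ?_) <;>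
                apply_rules (transparency := .reducible) (maxDepth := 400) using is_poly
  exact h0.comp (f := fun N A a => ((f N A a, g N A a), h N A a)) ((hf.prodMk hg).prodMk hh)

/-- The union of the earlier conditions. -/
noncomputable def sofar (a : Fin 7 → ZFSet.{u}) (g : ZFSet.{u}) : ZFSet.{u} := a 0 ∪ ⋃₀ (ran g)

noncomputable def stepF (a : Fin 7 → ZFSet.{u}) (x g : ZFSet.{u}) : ZFSet.{u} :=
  pick (a 1) (cand a x (sofar a g))

noncomputable def seqG (a : Fin 7 → ZFSet.{u}) (x : ZFSet.{u}) : ZFSet.{u} :=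
  rrec (stepF a) (fun x => x) x

theorem seqG_eq' (a : Fin 7 → ZFSet.{u}) (x : ZFSet.{u}) :
    seqG a x = stepF a x (gr x (seqG a)) :=
  rrec_eq (fun _ hy => rank_lt_of_mem hy)

theorem U.seqG (hFB3 : ST_FB3.{u}) {f : Set ZFSet.{u} → Set ZFSet.{u} → α → (Fin 7 → ZFSet.{u})}
    {g : Set ZFSet.{u} → Set ZFSet.{u} → α → ZFSet.{u}}
    (hf : U CZ.{u} f) (hg : U CZ g) :
    U CZ.{u} (fun N A a => SC.seqG (f N A a) (g N A a)) := by
  have h0 : U CZ.{u} (fun _ _ (p : (Fin 7 → ZFSet.{u}) × ZFSet.{u}) => SC.seqG p.1 p.2) := by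
    have h1 : U CZ.{u} (fun _ _ (p : ((Fin 7 → ZFSet.{u}) × ZFSet.{u}) × ZFSet.{u}) =>
        SC.stepF p.1.1 p.1.2 p.2) := by
      unfold SC.stepF SC.sofar
      refine U.pick ?_ (U.cand hFB3 ?_ ?_ ?_) <;>
        apply_rules (transparency := .reducible) (maxDepth := 400) using is_poly
    exact U.memrec (C := CZ.{u}) (α := Fin 7 → ZFSet.{u})
      (F := fun _ _ p => SC.stepF p.1.1 p.1.2 p.2) (G := fun _ _ a x => SC.seqG a x) h1
      (fun _ _ _ x _ => seqG_eq' _ x)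
  exact U.comp (g := fun _ _ (p : (Fin 7 → ZFSet.{u}) × ZFSet.{u}) => SC.seqG p.1 p.2) h0
    (f := fun N A a => (f N A a, g N A a)) (hf.prodMk hg)


/-- The injection of `{seqG a y : y ∈ x}` into `x`. -/
noncomputable def finj (a : Fin 7 → ZFSet.{u}) (x : ZFSet.{u}) : ZFSet.{u} :=
  ZFSet.sep (fun s => seqG a (psnd s) = pfst s ∧ ∀ j ∈ psnd s, ¬ seqG a j = pfst s)
    ((img x (seqG a)).prod x)

theorem img_U (hFB3 : ST_FB3.{u}) :
    U CZ.{u} (fun _ _ (p : (Fin 7 → ZFSet.{u}) × ZFSet.{u}) => img p.2 (seqG p.1)) := by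
  refine U.img (g := fun _ _ (p : (Fin 7 → ZFSet.{u}) × ZFSet.{u}) => seqG p.1) U.id.snd ?_
  exact U.seqG hFB3 (f := fun _ _ (p : ((Fin 7 → ZFSet.{u}) × ZFSet.{u}) × ZFSet.{u}) => p.1.1)
    (g := fun _ _ p => p.2) U.id.fst.fst U.id.snd

theorem finj_U (hFB3 : ST_FB3.{u}) :
    U CZ.{u} (fun _ _ (p : (Fin 7 → ZFSet.{u}) × ZFSet.{u}) => finj p.1 p.2) := by
  unfold finj
  refine U.sep (R := fun _ _ (p : (Fin 7 → ZFSet.{u}) × ZFSet.{u}) s =>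
    seqG p.1 (psnd s) = pfst s ∧ ∀ j ∈ psnd s, ¬ seqG p.1 j = pfst s) ?_ ?_
  · exact U.prod (img_U hFB3) U.id.snd
  · refine URel.and (URel.eq ?_ ?_) ?_
    · exact U.seqG hFB3
        (f := fun _ _ (p : ((Fin 7 → ZFSet.{u}) × ZFSet.{u}) × ZFSet.{u}) => p.1.1)
        (g := fun _ _ p => psnd p.2) U.id.fst.fst (U.psnd U.id.snd)
    · exact U.pfst U.id.snd
    · refine URel.ball (R := fun _ _ (p : ((Fin 7 → ZFSet.{u}) × ZFSet.{u}) × ZFSet.{u}) j =>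
        ¬ seqG p.1.1 j = pfst p.2) (U.psnd U.id.snd) (URel.not (URel.eq ?_ ?_))
      · exact U.seqG hFB3
          (f := fun _ _ (p : (((Fin 7 → ZFSet.{u}) × ZFSet.{u}) × ZFSet.{u}) × ZFSet.{u}) =>
            p.1.1.1) (g := fun _ _ p => p.2) U.id.fst.fst.fst U.id.snd
      · exact U.pfst U.id.fst.snd

theorem img_mem_of {M : Set ZFSet.{u}} (hFB3 : ST_FB3.{u}) (hM : IsZF M ∅)
    {a : Fin 7 → ZFSet.{u}} (ha : ∀ i, a i ∈ M) {x : ZFSet.{u}} (hx : x ∈ M) :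
    img x (seqG a) ∈ M :=
  in_zfset.1 ((img_U hFB3).closed (show CZ M ∅ from hM) (a := (a, x))
    (in_prod.2 ⟨in_fin.2 ha, in_zfset.2 hx⟩))

theorem finj_mem_of {M : Set ZFSet.{u}} (hFB3 : ST_FB3.{u}) (hM : IsZF M ∅)
    {a : Fin 7 → ZFSet.{u}} (ha : ∀ i, a i ∈ M) {x : ZFSet.{u}} (hx : x ∈ M) :
    finj a x ∈ M :=
  in_zfset.1 ((finj_U hFB3).closed (show CZ M ∅ from hM) (a := (a, x))
    (in_prod.2 ⟨in_fin.2 ha, in_zfset.2 hx⟩))

theorem cardLe_img {M : Set ZFSet.{u}} (hFB3 : ST_FB3.{u}) (hM : IsZF M ∅)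
    {a : Fin 7 → ZFSet.{u}} (ha : ∀ i, a i ∈ M) {i θ : Ordinal.{u}} (hi : oz i ∈ M)
    (hiθ : i ≤ θ) : CardLe M (img (oz i) (seqG a)) (oz θ) := by
  refine ⟨finj a (oz i), finj_mem_of hFB3 hM ha hi, ⟨?_, ?_⟩, ?_⟩
  · intro s hs
    have h1 := (mem_sep.1 hs).1
    rw [mem_prod] at h1 ⊢
    obtain ⟨y, hy, z, hz, rfl⟩ := h1
    refine ⟨y, hy, z, ?_, rfl⟩
    obtain ⟨j, hj, rfl⟩ := Ordinal.mem_toZFSet_iff.1 hz
    exact Ordinal.toZFSet_mem_toZFSet_iff.2 (hj.trans_le hiθ)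
  · intro z hz
    obtain ⟨y, hy, hyz⟩ := mem_img.1 hz
    obtain ⟨j0, hj0, rfl⟩ := Ordinal.mem_toZFSet_iff.1 hy
    obtain ⟨j, ⟨hji, hj⟩, hmin⟩ := WellFounded.has_min (wellFounded_lt (α := Ordinal.{u}))
      {j : Ordinal.{u} | j < i ∧ seqG a (oz j) = z} ⟨j0, hj0, hyz⟩
    have hlt : ∀ w, (ZFSet.pair z w ∈ finj a (oz i) ↔ w = oz j) := by
      intro w
      unfold finj
      rw [mem_sep, pair_mem_prod, psnd_pair, pfst_pair]
      constructor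
      · rintro ⟨⟨_, hw⟩, h1, h2⟩
        obtain ⟨j', hj', rfl⟩ := Ordinal.mem_toZFSet_iff.1 hw
        have h3 : ¬ j' < j := hmin j' ⟨hj', h1⟩
        have h4 : ¬ j < j' := fun h => h2 (oz j) (Ordinal.toZFSet_mem_toZFSet_iff.2 h) hj
        rw [le_antisymm (not_lt.1 h4) (not_lt.1 h3)]
      · rintro rfl
        refine ⟨⟨hz, Ordinal.toZFSet_mem_toZFSet_iff.2 hji⟩, hj, fun w hw h => ?_⟩
        obtain ⟨j', hj', rfl⟩ := Ordinal.mem_toZFSet_iff.1 hw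
        exact hmin j' ⟨hj'.trans hji, h⟩ hj'
    exact ⟨oz j, (hlt _).2 rfl, fun w hw => (hlt w).1 hw⟩
  · intro y _ y' _ z h1 h2
    have h3 := (mem_sep.1 h1).2.1
    have h4 := (mem_sep.1 h2).2.1
    rw [psnd_pair, pfst_pair] at h3 h4
    exact h3.symm.trans h4

theorem Dec.mono {P τ ξ p q : ZFSet.{u}} (hpq : p ⊆ q) (h : Dec P τ ξ p) : Dec P τ ξ q := by
  rcases h with h | h
  · exact Or.inl fun r hr h1 => h r hr (fun _ hx => h1 (hpq hx))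
  · exact Or.inr fun r hr h1 => h r hr (fun _ hx => h1 (hpq hx))

theorem union_sub {x y z : ZFSet.{u}} (h : x ⊆ z) (h' : y ⊆ z) : x ∪ y ⊆ z := fun _ hw =>
  (mem_union.1 hw).elim (fun hw => h hw) (fun hw => h' hw)

theorem sub_left (x y : ZFSet.{u}) : x ⊆ x ∪ y := fun _ hw => mem_union.2 (Or.inl hw)

theorem sub_right (x y : ZFSet.{u}) : y ⊆ x ∪ y := fun _ hw => mem_union.2 (Or.inr hw)

theorem fusion {M : Set ZFSet.{u}} (hFB3 : ST_FB3.{u}) {P Q R τ : ZFSet.{u}}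
    {μ θ : Ordinal.{u}} (hM : IsZF M ∅) (hWO : WO M) (hS : Split M P Q R) (hθ : oz θ ∈ M)
    (hc : CardLe M ((oz μ).prod Q) (oz θ)) (hR : ChainClosed M R (oz θ)) (hτ : τ ∈ M) :
    ∀ q0 ∈ R, ∃ q ∈ R, q0 ⊆ q ∧ ∀ ξ ∈ oz μ, ∀ b ∈ Q, ∃ b' ∈ Q, b ⊆ b' ∧
      Dec P τ ξ (b' ∪ q) := by
  intro q0 hq0
  obtain ⟨o, _, e, heM, heF, heI⟩ := hWO R hS.hR
  obtain ⟨h, hhM, hhF, hhI⟩ := hc
  set a : Fin 7 → ZFSet.{u} := ![q0, e, R, h, Q, P, τ] with ha
  have haM : ∀ i, a i ∈ M := by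
    intro i
    fin_cases i
    · exact hM.trans _ hS.hR _ hq0
    · exact heM
    · exact hS.hR
    · exact hhM
    · exact hS.hQ
    · exact hS.hP
    · exact hτ
  -- the candidates
  have hcand : ∀ x u q, q ∈ cand a x u ↔ q ∈ R ∧ u ⊆ q ∧ ∀ s ∈ h, psnd s = x → ∃ b ∈ Q,
      psnd (pfst s) ⊆ b ∧ Dec P τ (pfst (pfst s)) (b ∪ q) := fun x u q => mem_sep
  have hne : ∀ x, ∀ u ∈ R, ∃ q, q ∈ cand a x u := by
    intro x u hu
    by_cases hx : ∃ s ∈ h, psnd s = x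
    · obtain ⟨s, hs, rfl⟩ := hx
      have h1 := hhF.1 hs
      obtain ⟨t, ht, y, _, rfl⟩ := mem_prod.1 h1
      obtain ⟨ξ, _, b, hb, rfl⟩ := mem_prod.1 ht
      rw [psnd_pair]
      have huniq : ∀ s ∈ h, psnd s = y → pfst s = ZFSet.pair ξ b := by
        intro s' hs' h2
        obtain ⟨t', ht', y', _, rfl⟩ := mem_prod.1 (hhF.1 hs')
        rw [psnd_pair] at h2
        subst h2
        rw [pfst_pair]
        exact hhI t' ht' _ ht y' hs' hs
      by_cases he : ∃ r ∈ P, b ∪ u ⊆ r ∧ FMem P (chk ξ) τ r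
      · obtain ⟨r, hr, h2, h3⟩ := he
        obtain ⟨b', hb', q', hq', rfl⟩ := hS.dec r hr
        obtain ⟨h4, h5⟩ := hS.cmp b hb b' hb' u hu q' hq' h2
        refine ⟨q', (hcand _ _ _).2 ⟨hq', h5, fun s' hs' h6 => ⟨b', hb', ?_, ?_⟩⟩⟩
        · rw [huniq s' hs' h6, psnd_pair]
          exact h4
        · rw [huniq s' hs' h6, pfst_pair]
          exact Or.inl h3
      · refine ⟨u, (hcand _ _ _).2 ⟨hu, fun _ hz => hz, fun s' hs' h6 => ⟨b, hb, ?_, ?_⟩⟩⟩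
        · rw [huniq s' hs' h6, psnd_pair]
        · rw [huniq s' hs' h6, pfst_pair]
          exact Or.inr fun r hr h7 h8 => he ⟨r, hr, h7, h8⟩
    · exact ⟨u, (hcand _ _ _).2 ⟨hu, fun _ hz => hz, fun s' hs' h6 => absurd ⟨s', hs', h6⟩ hx⟩⟩
  have hpick : ∀ x, ∀ u ∈ R, pick e (cand a x u) ∈ cand a x u := fun x u hu =>
    pick_mem heF heI (fun q hq => ((hcand _ _ _).1 hq).1) (hne x u hu)
  -- the sequence
  set u : Ordinal.{u} → ZFSet.{u} := fun i => sofar a (gr (oz i) (seqG a)) with hu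
  have hmu : ∀ i z, z ∈ u i ↔ z ∈ q0 ∨ ∃ j < i, z ∈ seqG a (oz j) := by
    intro i z
    simp only [hu, sofar]
    rw [mem_union, mem_sUnion]
    refine or_congr Iff.rfl ?_
    constructor
    · rintro ⟨w, hw, hz⟩
      obtain ⟨x, hx⟩ := mem_ran.1 hw
      obtain ⟨hx1, rfl⟩ := pair_mem_gr.1 hx
      obtain ⟨j, hj, rfl⟩ := Ordinal.mem_toZFSet_iff.1 hx1
      exact ⟨j, hj, hz⟩
    · rintro ⟨j, hj, hz⟩
      exact ⟨_, mem_ran.2 ⟨oz j, pair_mem_gr.2 ⟨Ordinal.toZFSet_mem_toZFSet_iff.2 hj, rfl⟩⟩, hz⟩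
  have hstep : ∀ i, u i ∈ R → seqG a (oz i) ∈ cand a (oz i) (u i) := by
    intro i hi
    rw [seqG_eq']
    exact hpick _ _ hi
  have huR : ∀ i ≤ θ, (∀ j < i, seqG a (oz j) ∈ cand a (oz j) (u j)) → u i ∈ R := by
    intro i hi hj
    have hiM : oz i ∈ M := by
      rcases hi.eq_or_lt with rfl | hlt
      · exact hθ
      · exact hM.trans _ hθ _ (Ordinal.toZFSet_mem_toZFSet_iff.2 hlt)
    by_cases h0 : i = 0
    · have : u i = q0 := by
        ext z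
        rw [hmu, h0]
        constructor
        · rintro (h | ⟨j, hj, _⟩)
          · exact h
          · exact absurd hj (not_lt_bot (α := Ordinal.{u}))
        · exact Or.inl
      rw [this]
      exact hq0
    · have h0' : 0 < i := pos_iff_ne_zero.2 h0
      have hmono : ∀ j j', j < j' → j' < i → seqG a (oz j) ⊆ seqG a (oz j') := by
        intro j j' h1 h2 z hz
        exact ((hcand _ _ _).1 (hj j' h2)).2.1 ((hmu _ _).2 (Or.inr ⟨j, h1, hz⟩))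
      have hsU : (⋃₀ (img (oz i) (seqG a)) : ZFSet.{u}) = u i := by
        ext z
        rw [mem_sUnion, hmu]
        constructor
        · rintro ⟨w, hw, hz⟩
          obtain ⟨x, hx, rfl⟩ := mem_img.1 hw
          obtain ⟨j, hj, rfl⟩ := Ordinal.mem_toZFSet_iff.1 hx
          exact Or.inr ⟨j, hj, hz⟩
        · rintro (hz | ⟨j, hj, hz⟩)
          · refine ⟨_, mem_img.2 ⟨oz 0, Ordinal.toZFSet_mem_toZFSet_iff.2 h0', rfl⟩, ?_⟩
            exact ((hcand _ _ _).1 (hj 0 h0')).2.1 ((hmu _ _).2 (Or.inl hz))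
          · exact ⟨_, mem_img.2 ⟨oz j, Ordinal.toZFSet_mem_toZFSet_iff.2 hj, rfl⟩, hz⟩
      rw [← hsU]
      refine hR _ (img_mem_of hFB3 hM haM hiM) ?_ ?_ (cardLe_img hFB3 hM haM hiM hi) ?_
      · intro w hw
        obtain ⟨x, hx, rfl⟩ := mem_img.1 hw
        obtain ⟨j, hj', rfl⟩ := Ordinal.mem_toZFSet_iff.1 hx
        exact ((hcand _ _ _).1 (hj j hj')).1
      · intro w hw w' hw'
        obtain ⟨x, hx, rfl⟩ := mem_img.1 hw
        obtain ⟨x', hx', rfl⟩ := mem_img.1 hw'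
        obtain ⟨j, hj, rfl⟩ := Ordinal.mem_toZFSet_iff.1 hx
        obtain ⟨j', hj', rfl⟩ := Ordinal.mem_toZFSet_iff.1 hx'
        rcases lt_trichotomy j j' with h1 | rfl | h1
        · exact Or.inl (hmono j j' h1 hj')
        · exact Or.inl fun _ hz => hz
        · exact Or.inr (hmono j' j h1 hj)
      · intro h1
        have : seqG a (oz 0) ∈ img (oz i) (seqG a) :=
          mem_img.2 ⟨oz 0, Ordinal.toZFSet_mem_toZFSet_iff.2 h0', rfl⟩
        rw [h1] at this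
        exact notMem_empty _ this
  have hall : ∀ i, i ≤ θ → seqG a (oz i) ∈ cand a (oz i) (u i) := by
    intro i
    induction i using WellFoundedLT.induction with
    | _ i ih => exact fun hi => hstep i (huR i hi fun j hj => ih j hj (hj.le.trans hi))
  have huθ : u θ ∈ R := huR θ le_rfl fun j hj => hall j hj.le
  refine ⟨u θ, huθ, fun z hz => (hmu _ _).2 (Or.inl hz), fun ξ hξ b hb => ?_⟩
  obtain ⟨w, hw, _⟩ := hhF.2 (ZFSet.pair ξ b) (pair_mem_prod.2 ⟨hξ, hb⟩)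
  have hwθ := (pair_mem_prod.1 (hhF.1 hw)).2
  obtain ⟨i, hi, rfl⟩ := Ordinal.mem_toZFSet_iff.1 hwθ
  obtain ⟨b', hb', h1, h2⟩ := ((hcand _ _ _).1 (hall i hi.le)).2.2 _ hw psnd_pair
  rw [pfst_pair, psnd_pair] at h1
  rw [pfst_pair, pfst_pair] at h2
  refine ⟨b', hb', h1, h2.mono (union_sub (sub_left _ _) fun z hz => mem_union.2 (Or.inr ?_))⟩
  exact (hmu _ _).2 (Or.inr ⟨i, hi, hz⟩)

/-! ### The main sets. The parameters are `0 : P`, `1 : τ`, `2 : Q`, `3 : R`, `4 : μ`. -/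

noncomputable def Eset (a : Fin 5 → ZFSet.{u}) : ZFSet.{u} :=
  ZFSet.sep (fun q => ∀ ξ ∈ a 4, ∀ b ∈ a 2, ∃ b' ∈ a 2, b ⊆ b' ∧
    Dec (a 0) (a 1) ξ (b' ∪ q)) (a 3)

noncomputable def Dset (a : Fin 5 → ZFSet.{u}) : ZFSet.{u} :=
  ZFSet.sep (fun p => ∃ b ∈ a 2, ∃ q ∈ Eset a, p = b ∪ q) (a 0)

noncomputable def D2set (a : Fin 5 → ZFSet.{u}) (ξ q : ZFSet.{u}) : ZFSet.{u} :=
  ZFSet.sep (fun p => ∃ b ∈ a 2, b ⊆ p ∧ Dec (a 0) (a 1) ξ (b ∪ q)) (a 0)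

noncomputable def Sset (a : Fin 5 → ZFSet.{u}) (q : ZFSet.{u}) : ZFSet.{u} :=
  ZFSet.sep (fun s => FMem (a 0) (chk (pfst s)) (a 1) (psnd s ∪ q)) ((a 4).prod (a 2))

theorem Eset_U (hFB3 : ST_FB3.{u}) :
    U CZ.{u} (fun _ _ (a : Fin 5 → ZFSet.{u}) => Eset a) := by
  unfold Eset
  refine U.sep (R := fun _ _ (a : Fin 5 → ZFSet.{u}) q => ∀ ξ ∈ a 4, ∀ b ∈ a 2, ∃ b' ∈ a 2,
    b ⊆ b' ∧ Dec (a 0) (a 1) ξ (b' ∪ q)) ?_ ?_
  · apply_rules (transparency := .reducible) (maxDepth := 400) using is_poly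
  refine URel.ball (R := fun _ _ (p : (Fin 5 → ZFSet.{u}) × ZFSet.{u}) ξ => ∀ b ∈ p.1 2,
    ∃ b' ∈ p.1 2, b ⊆ b' ∧ Dec (p.1 0) (p.1 1) ξ (b' ∪ p.2)) ?_ ?_
  · apply_rules (transparency := .reducible) (maxDepth := 400) using is_poly
  refine URel.ball (R := fun _ _ (p : ((Fin 5 → ZFSet.{u}) × ZFSet.{u}) × ZFSet.{u}) b =>
    ∃ b' ∈ p.1.1 2, b ⊆ b' ∧ Dec (p.1.1 0) (p.1.1 1) p.2 (b' ∪ p.1.2)) ?_ ?_
  · apply_rules (transparency := .reducible) (maxDepth := 400) using is_poly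
  refine URel.bex (R := fun _ _ (p : (((Fin 5 → ZFSet.{u}) × ZFSet.{u}) × ZFSet.{u}) ×
    ZFSet.{u}) b' => p.2 ⊆ b' ∧ Dec (p.1.1.1 0) (p.1.1.1 1) p.1.2 (b' ∪ p.1.1.2)) ?_ ?_
  · apply_rules (transparency := .reducible) (maxDepth := 400) using is_poly
  refine URel.and ?_ (URel.dec hFB3 ?_ ?_ ?_ ?_) <;>
    apply_rules (transparency := .reducible) (maxDepth := 400) using is_poly

theorem Dset_U (hFB3 : ST_FB3.{u}) :
    U CZ.{u} (fun _ _ (a : Fin 5 → ZFSet.{u}) => Dset a) := by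
  unfold Dset
  refine U.sep (R := fun _ _ (a : Fin 5 → ZFSet.{u}) p => ∃ b ∈ a 2, ∃ q ∈ Eset a,
    p = b ∪ q) ?_ ?_
  · apply_rules (transparency := .reducible) (maxDepth := 400) using is_poly
  refine URel.bex (R := fun _ _ (p : (Fin 5 → ZFSet.{u}) × ZFSet.{u}) b => ∃ q ∈ Eset p.1,
    p.2 = b ∪ q) ?_ ?_
  · apply_rules (transparency := .reducible) (maxDepth := 400) using is_poly
  refine URel.bex (R := fun _ _ (p : ((Fin 5 → ZFSet.{u}) × ZFSet.{u}) × ZFSet.{u}) q =>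
    p.1.2 = p.2 ∪ q) ?_ ?_
  · exact (Eset_U hFB3).comp (f := fun _ _ (p : ((Fin 5 → ZFSet.{u}) × ZFSet.{u}) ×
      ZFSet.{u}) => p.1.1) U.id.fst.fst
  apply_rules (transparency := .reducible) (maxDepth := 400) using is_poly

theorem D2set_U (hFB3 : ST_FB3.{u}) :
    U CZ.{u} (fun _ _ (p : ((Fin 5 → ZFSet.{u}) × ZFSet.{u}) × ZFSet.{u}) =>
      D2set p.1.1 p.1.2 p.2) := by
  unfold D2set
  refine U.sep (R := fun _ _ (p : ((Fin 5 → ZFSet.{u}) × ZFSet.{u}) × ZFSet.{u}) x =>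
    ∃ b ∈ p.1.1 2, b ⊆ x ∧ Dec (p.1.1 0) (p.1.1 1) p.1.2 (b ∪ p.2)) ?_ ?_
  · apply_rules (transparency := .reducible) (maxDepth := 400) using is_poly
  refine URel.bex (R := fun _ _ (p : (((Fin 5 → ZFSet.{u}) × ZFSet.{u}) × ZFSet.{u}) ×
    ZFSet.{u}) b => b ⊆ p.2 ∧ Dec (p.1.1.1 0) (p.1.1.1 1) p.1.1.2 (b ∪ p.1.2)) ?_ ?_
  · apply_rules (transparency := .reducible) (maxDepth := 400) using is_poly
  refine URel.and ?_ (URel.dec hFB3 ?_ ?_ ?_ ?_) <;>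
    apply_rules (transparency := .reducible) (maxDepth := 400) using is_poly

theorem Sset_U (hFB3 : ST_FB3.{u}) :
    U CZ.{u} (fun _ _ (p : (Fin 5 → ZFSet.{u}) × ZFSet.{u}) => Sset p.1 p.2) := by
  unfold Sset
  refine U.sep (R := fun _ _ (p : (Fin 5 → ZFSet.{u}) × ZFSet.{u}) s =>
    FMem (p.1 0) (chk (pfst s)) (p.1 1) (psnd s ∪ p.2)) ?_ ?_
  · apply_rules (transparency := .reducible) (maxDepth := 400) using is_poly
  refine URel.fmem hFB3 ?_ ?_ ?_ ?_ <;>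
    apply_rules (transparency := .reducible) (maxDepth := 400) using is_poly

theorem empty_union (x : ZFSet.{u}) : ∅ ∪ x = x := by
  ext z
  rw [mem_union]
  exact ⟨fun h => h.elim (fun h => absurd h (notMem_empty z)) id, Or.inr⟩

theorem union_empty (x : ZFSet.{u}) : x ∪ ∅ = x := by
  ext z
  rw [mem_union]
  exact ⟨fun h => h.elim id (fun h => absurd h (notMem_empty z)), Or.inl⟩

/-- G2 (fusion). -/
theorem st_G2 (hFB2 : ST_FB2.{u}) (hFB3 : ST_FB3.{u}) : ST_G2.{u} := by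
  intro M P Q R G μ θ hM hWO hS hG hμ hθ hc hR X hX hXμ
  obtain ⟨τ, hτ, rfl⟩ := hX
  have hfus := fusion hFB3 hM hWO hS hθ hc hR hτ
  set a : Fin 5 → ZFSet.{u} := ![P, τ, Q, R, oz μ] with ha
  have haM : ∀ i, a i ∈ M := by
    intro i
    fin_cases i
    · exact hS.hP
    · exact hτ
    · exact hS.hQ
    · exact hS.hR
    · exact hμ
  have hQP : ∀ b ∈ Q, b ∈ P := fun b hb => by
    have := hS.un b hb ∅ hS.eR
    rwa [union_empty] at this
  have hRP : ∀ q ∈ R, q ∈ P := fun q hq => by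
    have := hS.un ∅ hS.eQ q hq
    rwa [empty_union] at this
  -- forcing
  have hforce : ∀ ξ ∈ M, (ξ ∈ val G τ ↔ ∃ p ∈ G, FMem P (chk ξ) τ p) := by
    intro ξ hξ
    have h1 := hFB2 M ∅ P G hM hS.hP hG 2 (Fml.mem 0 1) ![chk ξ, τ] (fun i => by
      fin_cases i
      · exact chk_mem hM hξ
      · exact hτ)
    rw [← val_chk hG.top ξ]
    exact h1.trans (by rw [val_chk hG.top ξ]; rfl)
  -- a good condition
  have hDM : Dset a ∈ M := in_zfset.1 ((Dset_U hFB3).closed (show CZ M ∅ from hM) (a := a)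
    (in_fin.2 haM))
  obtain ⟨p, hpG, hpD⟩ := hG.meets (Dset a) hDM (fun _ h => (mem_sep.1 h).1) (by
    intro p hp
    obtain ⟨b, hb, q0, hq0, rfl⟩ := hS.dec p hp
    obtain ⟨q, hq, h1, h2⟩ := hfus q0 hq0
    refine ⟨b ∪ q, mem_sep.2 ⟨hS.un b hb q hq, b, hb, q, mem_sep.2 ⟨hq, h2⟩, rfl⟩, ?_⟩
    exact union_sub (sub_left _ _) fun z hz => mem_union.2 (Or.inr (h1 hz)))
  obtain ⟨_, b0, hb0, q, hqE, rfl⟩ := mem_sep.1 hpD
  obtain ⟨hqR, hq⟩ := mem_sep.1 hqE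
  replace hqR : q ∈ R := hqR
  replace hq : ∀ ξ ∈ oz μ, ∀ b ∈ Q, ∃ b' ∈ Q, b ⊆ b' ∧ Dec P τ ξ (b' ∪ q) := hq
  have hqG : q ∈ G := hG.up _ hpG q (hRP q hqR) (sub_right _ _)
  have hqM : q ∈ M := hM.trans _ hS.hR _ hqR
  refine ⟨Sset a q, in_zfset.1 ((Sset_U hFB3).closed (show CZ M ∅ from hM) (a := (a, q))
    (in_prod.2 ⟨in_fin.2 haM, in_zfset.2 hqM⟩)), fun _ h => (mem_sep.1 h).1, fun ξ hξ => ?_⟩
  have hξM : ξ ∈ M := hM.trans _ hμ _ hξ
  have hmem : ∀ b, ZFSet.pair ξ b ∈ Sset a q ↔ b ∈ Q ∧ FMem P (chk ξ) τ (b ∪ q) := by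
    intro b
    unfold Sset
    rw [mem_sep, pair_mem_prod, pfst_pair, psnd_pair]
    exact ⟨fun h => ⟨h.1.2, h.2⟩, fun h => ⟨⟨hξ, h.1⟩, h.2⟩⟩
  rw [hforce ξ hξM]
  constructor
  · rintro ⟨p', hp'G, hp'⟩
    have hD2M : D2set a ξ q ∈ M := in_zfset.1 ((D2set_U hFB3).closed (show CZ M ∅ from hM)
      (a := ((a, ξ), q)) (in_prod.2 ⟨in_prod.2 ⟨in_fin.2 haM, in_zfset.2 hξM⟩,
        in_zfset.2 hqM⟩))
    obtain ⟨p2, hp2G, hp2⟩ := hG.meets _ hD2M (fun _ h => (mem_sep.1 h).1) (by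
      intro p hp
      obtain ⟨b, hb, q1, hq1, rfl⟩ := hS.dec p hp
      obtain ⟨b', hb', h1, h2⟩ := hq ξ hξ b hb
      refine ⟨b' ∪ q1, mem_sep.2 ⟨hS.un b' hb' q1 hq1, b', hb', sub_left _ _, h2⟩, ?_⟩
      exact union_sub (fun z hz => mem_union.2 (Or.inl (h1 hz))) (sub_right _ _))
    obtain ⟨_, b', hb', h1, h2⟩ := mem_sep.1 hp2
    replace hb' : b' ∈ Q := hb'
    replace h2 : Dec P τ ξ (b' ∪ q) := h2
    have hb'G : b' ∈ G := hG.up _ hp2G b' (hQP b' hb') h1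
    refine ⟨b', hb'G, hb', (hmem b').2 ⟨hb', ?_⟩⟩
    rcases h2 with h2 | h2
    · exact h2
    · obtain ⟨r1, hr1, h3, h4⟩ := hG.dir b' hb'G q hqG
      obtain ⟨r2, hr2, h5, h6⟩ := hG.dir r1 hr1 p' hp'G
      refine absurd ?_ (h2 r2 (hG.sub hr2) (union_sub (fun z hz => h5 (h3 hz))
        (fun z hz => h5 (h4 hz))))
      exact fun r hr h => hp' r hr (fun z hz => h (h6 hz))
  · rintro ⟨b, hbG, hbQ, h1⟩
    obtain ⟨_, h2⟩ := (hmem b).1 h1
    obtain ⟨r, hr, h3, h4⟩ := hG.dir b hbG q hqG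
    exact ⟨r, hr, fun r' hr' h => h2 r' hr' (fun z hz => h (union_sub h3 h4 hz))⟩

end Pool.Agent.Helper96.SC
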